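import Pool.Agent.H13.LN.Targets

/-!
# WSI: isolated chords (helper45)
-/

set_option autoImplicit false

open Finset Pool.Agent.H59.LIN Pool.Agent.H13.LN

namespace Pool.Agent.H45.LNT

theorem flat_sing (L : List ℕ) : (L.map fun x => [x]).flatten = L := by
  induction L with
  | nil => rfl
  | cons x L ih => simp only [List.map_cons, List.flatten_cons, ih, List.singleton_append]

theorem rot_app {B : Type} (d : ℕ) (S : List ℕ → B)
    (hr : ∀ (a : ℕ) (l : List ℕ), Gw d (a :: l) → S (l ++ [a]) = S (a :: l)) :
    ∀ A M : List ℕ, Gw d (A ++ M) → S (A ++ M) = S (M ++ A) := by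
  intro A
  induction A with
  | nil =>
    intro M _
    rw [List.nil_append, List.append_nil]
  | cons x A ih =>
    intro M h
    have hp : (A ++ (M ++ [x])).Perm (x :: A ++ M) := by
      rw [← List.append_assoc]
      exact List.perm_append_comm
    have h' : Gw d (A ++ (M ++ [x])) :=
      ⟨hp.length_eq.trans h.1, fun c hc => (hp.count_eq c).trans (h.2 c (hp.mem_iff.1 hc))⟩
    have h1 := ih (M ++ [x]) h'
    rw [← List.append_assoc, List.append_assoc M, List.singleton_append] at h1
    rw [← h1]
    exact (hr x (A ++ M) h).symm

theorem wsi : T_WSI := by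
  intro B' _ d H S hH hf hr hS A B a hG
  set T : List ℕ := B ++ A with hT
  have hrot : S (A ++ a :: a :: B) = S (a :: a :: T) := rot_app d S hr A (a :: a :: B) hG
  have hp : (a :: a :: T).Perm (A ++ a :: a :: B) := by
    rw [hT]
    exact List.perm_append_comm (l₁ := a :: a :: B) (l₂ := A)
  have hG' : Gw d (a :: a :: T) :=
    ⟨hp.length_eq.trans hG.1, fun c hc => (hp.count_eq c).trans (hG.2 c (hp.mem_iff.1 hc))⟩
  obtain ⟨e, rfl⟩ : ∃ e, d = e + 1 := by
    have := hG'.1
    simp only [List.length_cons] at this
    exact ⟨d - 1, by omega⟩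
  have hlen : T.length = 2 * e := by
    have := hG'.1
    simp only [List.length_cons] at this
    omega
  have haT : a ∉ T := by
    have := hG'.2 a (List.mem_cons_self)
    rw [List.count_cons_self, List.count_cons_self] at this
    exact List.count_eq_zero.1 (by omega)
  have hcT : ∀ x ∈ T, T.count x = 2 := by
    intro x hx
    have hne : x ≠ a := fun h => haT (h ▸ hx)
    have := hG'.2 x (List.mem_cons_of_mem _ (List.mem_cons_of_mem _ hx))
    rwa [List.count_cons_of_ne hne.symm, List.count_cons_of_ne hne.symm] at this
  set E := T.dedup with hE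
  have hmE : ∀ x, x ∈ E ↔ x ∈ T := fun x => List.mem_dedup
  have hEl : E.length = e := by
    have h1 := List.sum_map_count_dedup_eq_length T
    have h2 : T.dedup.map (fun x => T.count x) = T.dedup.map (fun _ => 2) :=
      List.map_congr_left fun x hx => hcT x (List.mem_dedup.1 hx)
    rw [h2, List.map_const', List.sum_replicate, smul_eq_mul, hlen] at h1
    rw [hE]
    omega
  set f : ℕ → ℕ := fun x => if x = a then e else E.idxOf x with hfd
  have hfa : f a = e := if_pos rfl
  have hfx : ∀ x ∈ T, f x = E.idxOf x := fun x hx =>
    if_neg fun h : x = a => haT (h ▸ hx)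
  have hfl : ∀ x ∈ T, f x < e := by
    intro x hx
    rw [hfx x hx, ← hEl]
    exact List.idxOf_lt_length_iff.2 ((hmE x).2 hx)
  have hinj : Set.InjOn f {x | x ∈ a :: a :: T} := by
    intro x hx y hy hxy
    have hx' : x = a ∨ x ∈ T := by simpa using hx
    have hy' : y = a ∨ y ∈ T := by simpa using hy
    rcases hx' with rfl | hx'
    · rcases hy' with rfl | hy'
      · rfl
      · have := hfl y hy'
        rw [← hxy, hfa] at this
        omega
    · rcases hy' with rfl | hy'
      · have := hfl x hx'
        rw [hxy, hfa] at this
        omega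
      · rw [hfx x hx', hfx y hy'] at hxy
        exact (List.idxOf_inj ((hmE x).2 hx')).1 hxy
  set L : List ℕ := T.map f with hL
  have hcL : ∀ k, L.count k = if k < e then 2 else 0 := by
    intro k
    split_ifs with hk
    · have hk' : k < E.length := hEl ▸ hk
      have hx0 : E[k] ∈ T := (hmE _).1 (List.getElem_mem hk')
      have hi : E.idxOf E[k] = k := (List.nodup_dedup T).idxOf_getElem k hk'
      rw [hL, List.count, List.countP_map, ← hcT _ hx0, List.count]
      refine List.countP_congr fun x hx => ?_
      simp only [Function.comp, beq_iff_eq]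
      rw [hfx x hx]
      constructor
      · intro h
        exact (List.idxOf_inj ((hmE x).2 hx)).1 (h.trans hi.symm)
      · intro h
        rw [h, hi]
    · refine List.count_eq_zero.2 fun h => ?_
      obtain ⟨x, hx, hxk⟩ := List.mem_map.1 h
      have := hfl x hx
      omega
  have hV1 : VL e ([] :: L.map fun x => [x]) := by
    refine ⟨List.cons_ne_nil _ _, ?_, fun k => ?_⟩
    · intro b hb
      rcases List.mem_cons.1 hb with rfl | hb
      · exact List.Pairwise.nil
      · obtain ⟨x, _, rfl⟩ := List.mem_map.1 hb
        exact List.pairwise_singleton _ _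
    · rw [List.flatten_cons, List.nil_append, flat_sing]
      exact hcL k
  have hV2 : VL (e + 1) ([e] :: [e] :: L.map fun x => [x]) := by
    refine ⟨List.cons_ne_nil _ _, ?_, fun k => ?_⟩
    · intro b hb
      rcases List.mem_cons.1 hb with rfl | hb
      · exact List.pairwise_singleton _ _
      rcases List.mem_cons.1 hb with rfl | hb
      · exact List.pairwise_singleton _ _
      · obtain ⟨x, _, rfl⟩ := List.mem_map.1 hb
        exact List.pairwise_singleton _ _
    · rw [List.flatten_cons, List.flatten_cons, flat_sing, List.singleton_append,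
        List.singleton_append]
      by_cases hk : e = k
      · subst hk
        rw [List.count_cons_self, List.count_cons_self, hcL, if_neg (lt_irrefl e),
          if_pos (Nat.lt_succ_self e)]
      · rw [List.count_cons_of_ne hk, List.count_cons_of_ne hk, hcL]
        by_cases hk2 : k < e
        · rw [if_pos hk2, if_pos (by omega)]
        · rw [if_neg hk2, if_neg (by omega)]
  have h0 := hH.kink e [] (L.map fun x => [x]) rfl hV1
  rw [List.nil_append, hS _ hV2, List.flatten_cons, List.flatten_cons, flat_sing,
    List.singleton_append, List.singleton_append] at h0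
  have h1 := hf (a :: a :: T) f hG' hinj
  rw [List.map_cons, List.map_cons, hfa, ← hL, h0] at h1
  rw [hrot, ← h1]

end Pool.Agent.H45.LNT
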